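import Pool.Agent.V11112.TE5

/-!
A transitive system of finite entropy where the growth rates of spanning sets oscillate at some
scale, while the growth rates of separated sets converge at every scale.
-/

set_option autoImplicit false

open Filter Topology

namespace Pool.Agent.Results.MP_307271_an.SpanOscillatesSepConverges

open V11112.TE

/-- closeness of the three letters: in the first phase the letter `0` is close to all letters, in
the second phase the letter `1` is close to all letters -/
def star (c : Bool) (v _v' : Fin 3) : Prop := v = (if c then 1 else 0)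

instance (c : Bool) (v v' : Fin 3) : Decidable (star c v v') := by
  unfold star; infer_instance

instance (c : Bool) (v v' : Fin 3) : Decidable (farV star c v v') := by
  unfold farV; infer_instance

/-- the colouring of the letters: `0` and `1` are close in both phases -/
def col : Fin 3 → Fin 2 := ![0, 0, 1]

/-- two letters which are far in the first phase -/
def rep : Fin 2 → Fin 3 := ![1, 2]

/-- **Result** (positive answer to the second question). There is a topologically transitive
system `(X, F)` of finite entropy and a scale `ε > 0` at which the lower and upper growth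
rates of `span` differ, while at every scale `δ > 0` the growth rate of `sep` exists as a limit,
in particular the lower and upper growth rates of `sep` agree. -/
theorem result : ∃ (X : Type) (_ : MetricSpace X) (_ : CompactSpace X) (F : X ≃ₜ X),
    Transitive F ∧ (∃ h : ℝ, HasEntropy F h) ∧
    (∃ ε : ℝ, 0 < ε ∧ lowerSpan F ε < upperSpan F ε) ∧
    ∀ δ : ℝ, 0 < δ → lowerSep F δ = upperSep F δ ∧
      ∃ s : ℝ, Tendsto (fun T : ℕ => Real.log (sep F δ T) / T) atTop (𝓝 s) := by
  obtain ⟨e, he⟩ := exists_surjective_nat (ℕ × List (Fin 3))
  have hlim : ∀ δ : ℝ, 0 < δ → ∃ s : ℝ, Tendsto (fun T : ℕ =>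
      Real.log (sep (shiftHomeo (cl := clS star) (x := word e)) δ T) / T) atTop (𝓝 s) := by
    intro δ hδ
    rcases le_or_gt δ (1 / 2) with h | h
    · exact ⟨_, tendsto_sep_small he hδ h⟩
    · rcases le_or_gt δ 1 with h' | h'
      · exact ⟨_, tendsto_sep_mid (adj := star) (C := Fin 2) col (by decide) rep (by decide)
          (by simp) he h h'⟩
      · exact ⟨_, tendsto_sep_large h'⟩
  refine ⟨Pt (clS star) (word e), inferInstance, compactSpace_pt, shiftHomeo,
    transitive_shift (word_isLim e), ⟨_, hasEntropy he⟩, ⟨1, one_pos, ?_⟩, fun δ hδ => ?_⟩
  · have h2 : (0 : ℝ) < Real.log 2 := Real.log_pos (by norm_num)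
    have hup := upperSpan_ge (adj := star) (C := Fin 2) (ε := 1) (c := 1 / 5 * Real.log 2)
      col rep (by decide) (by decide) (by simp) he (by norm_num) le_rfl (by simp; linarith)
    have hlow := lowerSpan_le_zero (adj := star) he (fun c => if c then 1 else 0)
      (by decide) (ε := 1) (by norm_num) le_rfl
    refine lt_of_le_of_lt hlow (lt_of_lt_of_le ?_ hup.1)
    positivity
  · obtain ⟨s, hs⟩ := hlim δ hδ
    exact ⟨hs.liminf_eq.trans hs.limsup_eq.symm, s, hs⟩

end Pool.Agent.Results.MP_307271_an.SpanOscillatesSepConverges
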